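import Pool.Agent.L7h33.LP.Defs

/-!
# Mod 2 homology of a rotation system, and the faces of a subgraph
-/

set_option autoImplicit false

namespace Pool.Agent.L7h33.LP

open SimpleGraph Finset

variable {V : Type*} {H : SimpleGraph V}

instance [Finite H.Dart] (R : Rotation H) : Finite R.Face :=
  inferInstanceAs (Finite (Quotient _))

lemma fc_eq_iff (R : Rotation H) (d d' : H.Dart) : R.fc d = R.fc d' ↔ R.face.SameCycle d d' :=
  Quotient.eq (r := Equiv.Perm.SameCycle.setoid R.face)

lemma fc_surj (R : Rotation H) (f : R.Face) : ∃ d, R.fc d = f := Quotient.exists_rep f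

lemma fc_face (R : Rotation H) (d : H.Dart) : R.fc (R.face d) = R.fc d := by
  rw [fc_eq_iff]
  exact (Equiv.Perm.SameCycle.refl _ _).apply_left

lemma fc_symm (R : Rotation H) (d : H.Dart) : R.fc d.symm = R.fc (R.next d) := by
  rw [← fc_face R d.symm]
  congr 1

lemma next_fst (R : Rotation H) (d : H.Dart) : (R.next d).fst = d.fst :=
  ((R.sameCycle_iff d (R.next d)).1 (Equiv.Perm.SameCycle.refl _ _).apply_right).symm

/-- the edge of a dart -/
def dedge (d : H.Dart) : H.edgeSet := ⟨d.edge, d.edge_mem⟩

lemma dedge_symm (d : H.Dart) : dedge d.symm = dedge d := Subtype.ext (Dart.edge_symm d)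

lemma dedge_eq_iff (d d' : H.Dart) : dedge d = dedge d' ↔ d = d' ∨ d = d'.symm := by
  rw [← dart_edge_eq_iff]
  exact Subtype.ext_iff

lemma dedge_surj (e : H.edgeSet) : ∃ d, dedge d = e := by
  obtain ⟨e, he⟩ := e
  induction e with
  | _ a b => exact ⟨⟨(a, b), he⟩, rfl⟩

section Fin

variable [Fintype V] [DecidableEq V] [DecidableRel H.Adj]

/-- the boundary of a 1-chain -/
def d1 (H : SimpleGraph V) [DecidableRel H.Adj] :
    (H.edgeSet → ZMod 2) →ₗ[ZMod 2] (V → ZMod 2) where
  toFun z v := ∑ d : H.Dart with d.fst = v, z (dedge d)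
  map_add' x y := by
    ext v
    simp [sum_add_distrib]
  map_smul' c x := by
    ext v
    simp [mul_sum]

/-- the boundary of a 2-chain -/
def d2 (R : Rotation H) : (R.Face → ZMod 2) →ₗ[ZMod 2] (H.edgeSet → ZMod 2) where
  toFun a e := ∑ d : H.Dart with dedge d = e, a (R.fc d)
  map_add' x y := by
    ext v
    simp [sum_add_distrib]
  map_smul' c x := by
    ext v
    simp [mul_sum]

lemma d1_apply (z : H.edgeSet → ZMod 2) (v : V) :
    d1 H z v = ∑ d : H.Dart with d.fst = v, z (dedge d) := rfl

lemma sum_fiber {M : Type*} [AddCommMonoid M] (d : H.Dart) (f : H.Dart → M) :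
    ∑ d' : H.Dart with dedge d' = dedge d, f d' = f d + f d.symm := by
  have : (univ.filter fun d' : H.Dart => dedge d' = dedge d) = {d, d.symm} := by
    ext d'
    simp [dedge_eq_iff]
  rw [this, sum_pair d.symm_ne.symm]

lemma d2_apply (R : Rotation H) (a : R.Face → ZMod 2) (d : H.Dart) :
    d2 R a (dedge d) = a (R.fc d) + a (R.fc d.symm) := sum_fiber d (fun d => a (R.fc d))

lemma d1_d2 (R : Rotation H) (a : R.Face → ZMod 2) : d1 H (d2 R a) = 0 := by
  ext v
  rw [d1_apply]
  simp only [d2_apply]
  rw [sum_add_distrib]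
  have : ∑ d : H.Dart with d.fst = v, a (R.fc d.symm) = ∑ d : H.Dart with d.fst = v, a (R.fc d) := by
    apply sum_bij (fun d _ => R.next d)
    · intro d hd
      simp only [mem_filter, mem_univ, true_and] at hd ⊢
      rw [next_fst, hd]
    · intro d _ d' _ h
      exact R.next.injective h
    · intro d hd
      refine ⟨R.next.symm d, ?_, by simp⟩
      simp only [mem_filter, mem_univ, true_and] at hd ⊢
      rw [← hd, ← next_fst R (R.next.symm d)]
      simp
    · intro d _
      rw [fc_symm]
  rw [this]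
  exact CharTwo.add_self_eq_zero _

lemma range_d2_le (R : Rotation H) : LinearMap.range (d2 R) ≤ LinearMap.ker (d1 H) := by
  rintro _ ⟨a, rfl⟩
  exact d1_d2 R a

omit [Fintype V] [DecidableEq V] [DecidableRel H.Adj] in
/-- a function on the darts which is invariant under reversal and rotation is constant -/
lemma const_of_inv {α : Type*} (R : Rotation H) (hH : H.Connected) (g : H.Dart → α)
    (h1 : ∀ d, g d.symm = g d) (h2 : ∀ d, g (R.next d) = g d) (d d' : H.Dart) : g d = g d' := by
  have h3 : ∀ d d' : H.Dart, d.fst = d'.fst → g d = g d' := by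
    intro d d' h
    obtain ⟨i, hi⟩ := (R.sameCycle_iff d d').2 h
    rw [← hi]
    have : ∀ n : ℕ, ∀ d, g ((R.next ^ n) d) = g d := by
      intro n
      induction n with
      | zero => intro d; rfl
      | succ n ih => intro d; rw [pow_succ', Equiv.Perm.mul_apply, h2, ih]
    cases i with
    | ofNat n => exact (this n d).symm
    | negSucc n =>
      rw [zpow_negSucc]
      have := this (n + 1) ((R.next ^ (n + 1))⁻¹ d)
      rw [← Equiv.Perm.mul_apply, mul_inv_cancel] at this
      exact this
  have h4 : ∀ u v : V, ∀ _ : H.Walk u v, ∀ d d' : H.Dart, d.fst = u → d'.fst = v → g d = g d' := by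
    intro u v p
    induction p with
    | nil => intro d d' hd hd'; exact h3 d d' (hd.trans hd'.symm)
    | cons h p ih =>
      intro d d' hd hd'
      rw [← ih ⟨(_, _), h.symm⟩ d' rfl hd', ← h1 ⟨(_, _), h.symm⟩]
      exact h3 _ _ hd
  obtain ⟨p⟩ := hH.preconnected d.fst d'.fst
  exact h4 _ _ p d d' rfl rfl

lemma ker_d2_const (R : Rotation H) (hH : H.Connected) (a : R.Face → ZMod 2) (ha : d2 R a = 0)
    (f f' : R.Face) : a f = a f' := by
  obtain ⟨d, rfl⟩ := fc_surj R f
  obtain ⟨d', rfl⟩ := fc_surj R f'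
  have h1 : ∀ d : H.Dart, a (R.fc d.symm) = a (R.fc d) := by
    intro d
    have := congrFun ha (dedge d)
    rw [d2_apply] at this
    exact (CharTwo.add_eq_zero.1 this).symm
  exact const_of_inv R hH (fun d => a (R.fc d)) h1 (fun d => by
    rw [← fc_symm, h1]) d d'


lemma finrank_ker_d2 (R : Rotation H) (hH : H.Connected) :
    Module.finrank (ZMod 2) (LinearMap.ker (d2 R)) ≤ 1 := by
  have h : LinearMap.ker (d2 R) ≤ Submodule.span (ZMod 2) {fun _ => 1} := by
    intro a ha
    rw [Submodule.mem_span_singleton]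
    by_cases hne : Nonempty R.Face
    · obtain ⟨f0⟩ := hne
      refine ⟨a f0, ?_⟩
      ext f
      simp only [Pi.smul_apply, smul_eq_mul, mul_one]
      exact ker_d2_const R hH a ha f0 f
    · refine ⟨0, ?_⟩
      ext f
      exact absurd ⟨f⟩ hne
  refine (Submodule.finrank_mono h).trans ((finrank_span_le_card _).trans ?_)
  simp

lemma finrank_range_d2 (R : Rotation H) (hH : H.Connected) :
    Nat.card R.Face ≤ Module.finrank (ZMod 2) (LinearMap.range (d2 R)) + 1 := by
  have : Fintype R.Face := Fintype.ofFinite _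
  have h1 := LinearMap.finrank_range_add_finrank_ker (d2 R)
  have h2 := finrank_ker_d2 R hH
  rw [Module.finrank_fintype_fun_eq_card, ← Nat.card_eq_fintype_card] at h1
  omega

lemma d1_single (d : H.Dart) :
    d1 H (Pi.single (dedge d) 1) = Pi.single d.fst 1 + Pi.single d.snd 1 := by
  ext v
  rw [d1_apply]
  have h : ∀ d' : H.Dart, (Pi.single (dedge d) 1 : H.edgeSet → ZMod 2) (dedge d') =
      if dedge d' = dedge d then 1 else 0 := by
    intro d'
    rw [Pi.single_apply]
  simp only [h]
  rw [sum_filter, ← sum_filter_add_sum_filter_not univ (fun d' => dedge d' = dedge d)]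
  have h2 : ∑ x : H.Dart with ¬ dedge x = dedge d,
      (if x.fst = v then (if dedge x = dedge d then (1 : ZMod 2) else 0) else 0) = 0 := by
    apply sum_eq_zero
    intro x hx
    simp only [mem_filter, mem_univ, true_and] at hx
    simp [hx]
  rw [h2, add_zero, sum_fiber]
  simp only [dedge_symm, if_true, Pi.add_apply, Pi.single_apply]
  change (if d.fst = v then 1 else 0) + (if d.snd = v then 1 else 0) = _
  congr 1 <;> simp only [eq_comm]

omit [Fintype V] [DecidableEq V] in
lemma add_self_fun (f : V → ZMod 2) : f + f = 0 := by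
  ext v
  exact CharTwo.add_self_eq_zero _

lemma single_add_single_mem {u v : V} (p : H.Walk u v) :
    (Pi.single u 1 + Pi.single v 1 : V → ZMod 2) ∈ LinearMap.range (d1 H) := by
  induction p with
  | nil => rw [add_self_fun]; exact Submodule.zero_mem _
  | @cons u w v h p ih =>
    have h1 : (Pi.single u 1 + Pi.single v 1 : V → ZMod 2) =
        (Pi.single u 1 + Pi.single w 1) + (Pi.single w 1 + Pi.single v 1) := by
      rw [add_assoc, ← add_assoc (Pi.single w 1) (Pi.single w 1), add_self_fun, zero_add]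
    rw [h1]
    exact Submodule.add_mem _ ⟨_, d1_single ⟨(u, w), h⟩⟩ ih

lemma finrank_ker_d1 (hH : H.Connected) :
    Module.finrank (ZMod 2) (LinearMap.ker (d1 H)) + Nat.card V ≤ Nat.card H.edgeSet + 1 := by
  obtain ⟨v0⟩ := hH.nonempty
  have h1 := LinearMap.finrank_range_add_finrank_ker (d1 H)
  rw [Module.finrank_fintype_fun_eq_card, ← Nat.card_eq_fintype_card] at h1
  let s : (V → ZMod 2) →ₗ[ZMod 2] ZMod 2 :=
    { toFun := fun f => ∑ v, f v
      map_add' := fun x y => by simp [sum_add_distrib]
      map_smul' := fun c x => by simp [mul_sum] }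
  have hs := LinearMap.finrank_range_add_finrank_ker s
  have hs1 : Module.finrank (ZMod 2) (LinearMap.range s) ≤ 1 := by
    have := Submodule.finrank_le (LinearMap.range s)
    simpa using this
  rw [Module.finrank_fintype_fun_eq_card, ← Nat.card_eq_fintype_card] at hs
  have hle : LinearMap.ker s ≤ LinearMap.range (d1 H) := by
    intro f hf
    have hf' : ∑ v, f v = 0 := hf
    have h2 : f = ∑ v, f v • (Pi.single v 1 + Pi.single v0 1 : V → ZMod 2) := by
      simp only [smul_add, sum_add_distrib]
      rw [← sum_smul, hf', zero_smul, add_zero]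
      ext w
      simp [Pi.single_apply]
    rw [h2]
    apply Submodule.sum_mem
    intro v _
    apply Submodule.smul_mem
    obtain ⟨p⟩ := hH.preconnected v v0
    exact single_add_single_mem p
  have := Submodule.finrank_mono hle
  omega

/-- the edge is an edge of `G` and both ends lie in `W` -/
def inK (G : SimpleGraph V) (W : Finset V) (e : H.edgeSet) : Prop :=
  e.1 ∈ G.edgeSet ∧ ∀ x ∈ e.1, x ∈ W

omit [Fintype V] [DecidableEq V] [DecidableRel H.Adj] in
lemma inK_dedge (G : SimpleGraph V) (W : Finset V) (d : H.Dart) :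
    inK G W (dedge d) ↔ G.Adj d.fst d.snd ∧ d.fst ∈ W ∧ d.snd ∈ W := by
  unfold inK
  change (s(d.fst, d.snd) ∈ G.edgeSet ∧ ∀ x ∈ (s(d.fst, d.snd) : Sym2 V), x ∈ W) ↔ _
  simp [Sym2.mem_iff]

/-- the chains supported on a set of edges -/
def SK (P : H.edgeSet → Prop) : Submodule (ZMod 2) (H.edgeSet → ZMod 2) where
  carrier := {z | ∀ e, ¬ P e → z e = 0}
  add_mem' := by
    intro a b ha hb e he
    simp [ha e he, hb e he]
  zero_mem' := by
    intro e he
    rfl
  smul_mem' := by
    intro c a ha e he
    simp [ha e he]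

omit [Fintype V] [DecidableEq V] [DecidableRel H.Adj] in
lemma mem_SK (P : H.edgeSet → Prop) (z : H.edgeSet → ZMod 2) :
    z ∈ SK P ↔ ∀ e, ¬ P e → z e = 0 := Iff.rfl

lemma finrank_SK_inf_ker (W : Finset V) (hW : W.Nonempty) (P : H.edgeSet → Prop)
    (hP : ∀ e, P e → ∀ x ∈ e.1, x ∈ W) :
    Nat.card {e : H.edgeSet // P e} + 1 ≤
      W.card + Module.finrank (ZMod 2) ↥(SK P ⊓ LinearMap.ker (d1 H)) := by
  classical
  obtain ⟨w0, hw0⟩ := hW
  let ext : ({e : H.edgeSet // P e} → ZMod 2) →ₗ[ZMod 2] (H.edgeSet → ZMod 2) :=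
    { toFun := fun g e => if h : P e then g ⟨e, h⟩ else 0
      map_add' := fun x y => by
        ext e
        by_cases h : P e <;> simp [h]
      map_smul' := fun c x => by
        ext e
        by_cases h : P e <;> simp [h] }
  have hext : ∀ g e (h : P e), ext g e = g ⟨e, h⟩ := fun g e h => by simp [ext, h]
  have hext' : ∀ g e, ¬ P e → ext g e = 0 := fun g e h => by simp [ext, h]
  let rho : (V → ZMod 2) →ₗ[ZMod 2] ({v // v ∈ W.erase w0} → ZMod 2) :=
    { toFun := fun f v => f v.1
      map_add' := fun x y => rfl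
      map_smul' := fun c x => rfl }
  let psi := rho ∘ₗ (d1 H) ∘ₗ ext
  have h1 := LinearMap.finrank_range_add_finrank_ker psi
  have h2 := Submodule.finrank_le (LinearMap.range psi)
  rw [Module.finrank_fintype_fun_eq_card, ← Nat.card_eq_fintype_card] at h1
  rw [Module.finrank_fintype_fun_eq_card, Fintype.card_coe, card_erase_of_mem hw0] at h2
  have h3 : Module.finrank (ZMod 2) (LinearMap.ker psi) ≤
      Module.finrank (ZMod 2) ↥(SK P ⊓ LinearMap.ker (d1 H)) := by
    let f : LinearMap.ker psi →ₗ[ZMod 2] ↥(SK P ⊓ LinearMap.ker (d1 H)) :=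
      LinearMap.codRestrict _ (ext ∘ₗ (LinearMap.ker psi).subtype) (by
        intro g
        refine ⟨fun e he => hext' _ e he, ?_⟩
        have hg : ∀ v ∈ W.erase w0, d1 H (ext g.1) v = 0 := by
          intro v hv
          exact congrFun (g.2 : psi g.1 = 0) ⟨v, hv⟩
        have hout : ∀ v, v ∉ W → d1 H (ext g.1) v = 0 := by
          intro v hv
          rw [d1_apply]
          apply sum_eq_zero
          intro d hd
          simp only [mem_filter, mem_univ, true_and] at hd
          apply hext'
          intro h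
          apply hv
          rw [← hd]
          exact hP _ h _ (Sym2.mem_mk_left d.fst d.snd)
        have hsum : ∑ v, d1 H (ext g.1) v = 0 := by
          have : ∀ z : H.edgeSet → ZMod 2, ∑ v, d1 H z v = 0 := by
            intro z
            simp only [d1_apply]
            rw [sum_fiberwise univ (fun d : H.Dart => d.fst) (fun d => z (dedge d))]
            rw [← sum_fiberwise univ (fun d : H.Dart => dedge d) (fun d => z (dedge d))]
            apply sum_eq_zero
            intro e _
            obtain ⟨d, rfl⟩ := dedge_surj e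
            rw [sum_fiber, dedge_symm]
            exact CharTwo.add_self_eq_zero _
          exact this _
        change d1 H (ext g.1) = 0
        ext v
        by_cases hv : v ∈ W
        · by_cases hv0 : v = w0
          · subst hv0
            rw [← add_sum_erase univ _ (mem_univ v)] at hsum
            rw [sum_eq_zero, add_zero] at hsum
            · exact hsum
            · intro x hx
              by_cases hxW : x ∈ W
              · exact hg x (mem_erase.2 ⟨(mem_erase.1 hx).1, hxW⟩)
              · exact hout x hxW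
          · exact hg v (mem_erase.2 ⟨hv0, hv⟩)
        · exact hout v hv)
    apply LinearMap.finrank_le_finrank_of_injective (f := f)
    intro a b hab
    have hab' : ext a.1 = ext b.1 := congrArg Subtype.val hab
    apply Subtype.ext
    funext e
    have := congrFun hab' e.1
    rw [hext _ _ e.2, hext _ _ e.2] at this
    exact this
  have hc : 1 ≤ W.card := card_pos.2 ⟨w0, hw0⟩
  omega

/-- adjacency of faces across an edge which does not satisfy `P` -/
def relK (R : Rotation H) (P : H.edgeSet → Prop) (f f' : R.Face) : Prop :=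
  ∃ d : H.Dart, ¬ P (dedge d) ∧ f = R.fc d ∧ f' = R.fc d.symm

/-- the faces of the subgraph with edge set `P` -/
def FK (R : Rotation H) (P : H.edgeSet → Prop) : Type _ := Quot (relK R P)

instance (R : Rotation H) (P : H.edgeSet → Prop) : Finite (FK R P) :=
  inferInstanceAs (Finite (Quot _))

/-- the class of a face -/
def clsK (R : Rotation H) (P : H.edgeSet → Prop) (f : R.Face) : FK R P := Quot.mk _ f

omit [Fintype V] [DecidableEq V] [DecidableRel H.Adj] in
lemma clsK_symm (R : Rotation H) (P : H.edgeSet → Prop) (d : H.Dart) (h : ¬ P (dedge d)) :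
    clsK R P (R.fc d.symm) = clsK R P (R.fc d) :=
  (Quot.sound ⟨d, h, rfl, rfl⟩ : clsK R P (R.fc d) = clsK R P (R.fc d.symm)).symm

/-- the boundary map on the faces of the subgraph -/
def dK (R : Rotation H) (P : H.edgeSet → Prop) :
    (FK R P → ZMod 2) →ₗ[ZMod 2] (H.edgeSet → ZMod 2) :=
  (d2 R) ∘ₗ
    { toFun := fun a f => a (clsK R P f)
      map_add' := fun _ _ => rfl
      map_smul' := fun _ _ => rfl }

lemma dK_apply (R : Rotation H) (P : H.edgeSet → Prop) (a : FK R P → ZMod 2) (d : H.Dart) :
    dK R P a (dedge d) = a (clsK R P (R.fc d)) + a (clsK R P (R.fc d.symm)) :=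
  d2_apply R _ d

lemma dK_mem (R : Rotation H) (P : H.edgeSet → Prop) (a : FK R P → ZMod 2) :
    dK R P a ∈ SK P := by
  intro e he
  obtain ⟨d, rfl⟩ := dedge_surj e
  rw [dK_apply, clsK_symm R P d he]
  exact CharTwo.add_self_eq_zero _

lemma dK_ker (R : Rotation H) (P : H.edgeSet → Prop) (a : FK R P → ZMod 2) :
    d1 H (dK R P a) = 0 :=
  d1_d2 R _

lemma inf_range_le (R : Rotation H) (P : H.edgeSet → Prop) :
    SK P ⊓ LinearMap.range (d2 R) ≤ LinearMap.range (dK R P) := by
  rintro z ⟨hz, a, rfl⟩
  have ha : ∀ f f', relK R P f f' → a f = a f' := by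
    rintro _ _ ⟨d, hd, rfl, rfl⟩
    have := hz (dedge d) hd
    rw [d2_apply] at this
    exact CharTwo.add_eq_zero.1 this
  refine ⟨fun q => Quot.lift a ha q, ?_⟩
  rfl

lemma finrank_SK_inf_range [Nonempty H.Dart] (R : Rotation H) (P : H.edgeSet → Prop) :
    Module.finrank (ZMod 2) ↥(SK P ⊓ LinearMap.range (d2 R)) + 1 ≤ Nat.card (FK R P) := by
  classical
  have : Fintype (FK R P) := Fintype.ofFinite _
  have h1 := LinearMap.finrank_range_add_finrank_ker (dK R P)
  rw [Module.finrank_fintype_fun_eq_card, ← Nat.card_eq_fintype_card] at h1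
  have h2 : 1 ≤ Module.finrank (ZMod 2) (LinearMap.ker (dK R P)) := by
    rw [Nat.one_le_iff_ne_zero, ne_eq, Submodule.finrank_eq_zero]
    intro h
    have h3 : (fun _ => 1 : FK R P → ZMod 2) ∈ LinearMap.ker (dK R P) := by
      rw [LinearMap.mem_ker]
      ext e
      obtain ⟨d, rfl⟩ := dedge_surj e
      rw [dK_apply]
      exact CharTwo.add_self_eq_zero _
    rw [h, Submodule.mem_bot] at h3
    obtain ⟨d⟩ := (inferInstance : Nonempty H.Dart)
    exact one_ne_zero (congrFun h3 (clsK R P (R.fc d)))
  have h4 := Submodule.finrank_mono (inf_range_le R P)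
  omega

/-- Euler's inequality for a subgraph -/
lemma euler_ineq [Nonempty H.Dart] (R : Rotation H) (hH : H.Connected) (W : Finset V)
    (hW : W.Nonempty) (P : H.edgeSet → Prop) (hP : ∀ e, P e → ∀ x ∈ e.1, x ∈ W) :
    (Nat.card {e : H.edgeSet // P e} : ℤ) + R.euler ≤ W.card + Nat.card (FK R P) := by
  have h1 := finrank_SK_inf_ker (H := H) W hW P hP
  have h2 := finrank_SK_inf_range R P
  have h3 := finrank_ker_d1 hH
  have h4 := finrank_range_d2 R hH
  have h5 := Submodule.finrank_sup_add_finrank_inf_eq (SK P ⊓ LinearMap.ker (d1 H))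
    (LinearMap.range (d2 R))
  have h6 : Module.finrank (ZMod 2)
      ↥((SK P ⊓ LinearMap.ker (d1 H)) ⊔ LinearMap.range (d2 R)) ≤
      Module.finrank (ZMod 2) (LinearMap.ker (d1 H)) :=
    Submodule.finrank_mono (sup_le inf_le_right (range_d2_le R))
  have h7 : Module.finrank (ZMod 2)
      ↥((SK P ⊓ LinearMap.ker (d1 H)) ⊓ LinearMap.range (d2 R)) ≤
      Module.finrank (ZMod 2) ↥(SK P ⊓ LinearMap.range (d2 R)) :=
    Submodule.finrank_mono (inf_le_inf_right _ inf_le_left)
  unfold Rotation.euler
  omega

/-- Euler's inequality for a subgraph all of whose cycles are null-homologous -/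
lemma euler_ineq' [Nonempty H.Dart] (R : Rotation H) (W : Finset V) (hW : W.Nonempty)
    (P : H.edgeSet → Prop) (hP : ∀ e, P e → ∀ x ∈ e.1, x ∈ W)
    (hB : SK P ⊓ LinearMap.ker (d1 H) ≤ LinearMap.range (d2 R)) :
    Nat.card {e : H.edgeSet // P e} + 2 ≤ W.card + Nat.card (FK R P) := by
  have h1 := finrank_SK_inf_ker (H := H) W hW P hP
  have h2 := finrank_SK_inf_range R P
  have h3 : Module.finrank (ZMod 2) ↥(SK P ⊓ LinearMap.ker (d1 H)) ≤
      Module.finrank (ZMod 2) ↥(SK P ⊓ LinearMap.range (d2 R)) :=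
    Submodule.finrank_mono (le_inf inf_le_left hB)
  omega

/-- a bounding chain in a subgraph with even faces has an even number of edges -/
lemma sum_eq_zero_of_even (R : Rotation H) (P : H.edgeSet → Prop)
    (hev : ∀ k : FK R P, Even (Nat.card {d : H.Dart // P (dedge d) ∧ clsK R P (R.fc d) = k}))
    (z : H.edgeSet → ZMod 2) (hz : z ∈ SK P) (hz' : z ∈ LinearMap.range (d2 R)) :
    ∑ e, z e = 0 := by
  classical
  have : Fintype (FK R P) := Fintype.ofFinite _
  obtain ⟨a, rfl⟩ := inf_range_le R P ⟨hz, hz'⟩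
  have h1 : ∀ e : H.edgeSet, dK R P a e =
      ∑ d : H.Dart with dedge d = e, if P (dedge d) then a (clsK R P (R.fc d)) else 0 := by
    intro e
    obtain ⟨x, rfl⟩ := dedge_surj e
    rw [sum_fiber, dK_apply, dedge_symm]
    by_cases h : P (dedge x)
    · rw [if_pos h, if_pos h]
    · rw [if_neg h, if_neg h, clsK_symm R P x h, CharTwo.add_self_eq_zero, add_zero]
  simp only [h1]
  rw [sum_fiberwise univ (fun d : H.Dart => dedge d)
    (fun d => if P (dedge d) then a (clsK R P (R.fc d)) else 0), ← sum_filter,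
    ← sum_fiberwise _ (fun d : H.Dart => clsK R P (R.fc d))]
  apply sum_eq_zero
  intro k _
  have h2 : ∑ d ∈ (univ.filter fun d : H.Dart => P (dedge d)).filter
      (fun d => clsK R P (R.fc d) = k), a (clsK R P (R.fc d)) =
      ∑ _d ∈ (univ.filter fun d : H.Dart => P (dedge d)).filter
      (fun d => clsK R P (R.fc d) = k), a k := by
    apply sum_congr rfl
    intro d hd
    rw [(mem_filter.1 hd).2]
  rw [h2, sum_const, filter_filter, nsmul_eq_mul]
  have h3 := hev k
  rw [Nat.card_eq_fintype_card, Fintype.card_subtype] at h3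
  obtain ⟨r, hr⟩ := h3
  rw [hr]
  push_cast
  rw [CharTwo.add_self_eq_zero, zero_mul]

end Fin

end Pool.Agent.L7h33.LP
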