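import Mathlib

/-!
# Minimal subsets which are not list colourable
-/

set_option autoImplicit false

namespace Pool.Agent.L7h33.LP

open SimpleGraph Finset

variable {V : Type*} {G : SimpleGraph V} [DecidableEq V] [DecidableRel G.Adj]

/-- `W` can be coloured from the lists -/
def Col (G : SimpleGraph V) (L : V → Finset ℕ) (W : Finset V) : Prop :=
  ∃ c : V → ℕ, (∀ v ∈ W, c v ∈ L v) ∧ ∀ u ∈ W, ∀ v ∈ W, G.Adj u v → c u ≠ c v

/-- colouring one more vertex -/
lemma extend_one (L : V → Finset ℕ) (W : Finset V) (v : V) (hv : v ∈ W)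
    (hc : Col G L (W.erase v)) (hdeg : (W.filter (G.Adj v)).card < (L v).card) : Col G L W := by
  obtain ⟨c, hc1, hc2⟩ := hc
  have h1 : ((W.filter (G.Adj v)).image c).card < (L v).card :=
    lt_of_le_of_lt card_image_le hdeg
  obtain ⟨k, hk, hk'⟩ := exists_mem_notMem_of_card_lt_card h1
  have hk2 : ∀ u ∈ W, G.Adj v u → c u ≠ k := by
    intro u hu ha h
    exact hk' (mem_image.2 ⟨u, mem_filter.2 ⟨hu, ha⟩, h⟩)
  refine ⟨Function.update c v k, ?_, ?_⟩
  · intro u hu
    by_cases h : u = v
    · subst h; rw [Function.update_self]; exact hk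
    · rw [Function.update_of_ne h]; exact hc1 u (mem_erase.2 ⟨h, hu⟩)
  · intro u hu w hw ha
    by_cases h : u = v <;> by_cases h' : w = v
    · subst h; subst h'; exact absurd ha (G.loopless.irrefl _)
    · subst h
      rw [Function.update_self, Function.update_of_ne h']
      exact (hk2 w hw ha).symm
    · subst h'
      rw [Function.update_self, Function.update_of_ne h]
      exact hk2 u hu ha.symm
    · rw [Function.update_of_ne h, Function.update_of_ne h']
      exact hc2 u (mem_erase.2 ⟨h, hu⟩) w (mem_erase.2 ⟨h', hw⟩) ha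

/-- the 4-cycle is 2-choosable -/
lemma four_cycle_choose (A B C D : Finset ℕ) (hA : 2 ≤ A.card) (hB : 2 ≤ B.card)
    (hC : 2 ≤ C.card) (hD : 2 ≤ D.card) :
    ∃ a ∈ A, ∃ b ∈ B, ∃ c ∈ C, ∃ d ∈ D, a ≠ b ∧ b ≠ c ∧ c ≠ d ∧ d ≠ a := by
  -- a colour of `S` different from two given colours which are equal or ...
  have avoid1 : ∀ (S : Finset ℕ) (x : ℕ), 2 ≤ S.card → ∃ s ∈ S, s ≠ x := by
    intro S x hS
    obtain ⟨s, hs, hs'⟩ := exists_mem_notMem_of_card_lt_card
      (show ({x} : Finset ℕ).card < S.card by rw [card_singleton]; omega)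
    exact ⟨s, hs, by simpa using hs'⟩
  by_cases h1 : ∃ x, x ∈ A ∧ x ∈ C
  · obtain ⟨x, hx, hx'⟩ := h1
    obtain ⟨b, hb, hb'⟩ := avoid1 B x hB
    obtain ⟨d, hd, hd'⟩ := avoid1 D x hD
    exact ⟨x, hx, b, hb, x, hx', d, hd, hb'.symm, hb', hd'.symm, hd'⟩
  by_cases h2 : ∃ x, x ∈ B ∧ x ∈ D
  · obtain ⟨x, hx, hx'⟩ := h2
    obtain ⟨a, ha, ha'⟩ := avoid1 A x hA
    obtain ⟨c, hc, hc'⟩ := avoid1 C x hC
    exact ⟨a, ha, x, hx, c, hc, x, hx', ha', hc'.symm, hc', ha'.symm⟩
  push Not at h1 h2
  -- `A`, `C` disjoint and `B`, `D` disjoint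
  obtain ⟨a, ha, a', ha', haa⟩ := one_lt_card.1 (show 1 < A.card by omega)
  obtain ⟨c, hc, c', hc', hcc⟩ := one_lt_card.1 (show 1 < C.card by omega)
  -- for a pair `(p, r)` in `A × C` with `B ⊄ {p, r}` and `D ⊄ {p, r}` we are done
  have done : ∀ p ∈ A, ∀ r ∈ C, (∃ b ∈ B, b ≠ p ∧ b ≠ r) → (∃ d ∈ D, d ≠ p ∧ d ≠ r) →
      ∃ a ∈ A, ∃ b ∈ B, ∃ c ∈ C, ∃ d ∈ D, a ≠ b ∧ b ≠ c ∧ c ≠ d ∧ d ≠ a := by
    rintro p hp r hr ⟨b, hb, hb1, hb2⟩ ⟨d, hd, hd1, hd2⟩
    exact ⟨p, hp, b, hb, r, hr, d, hd, hb1.symm, hb2, hd2.symm, hd1⟩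
  -- a set of two colours is contained in at most one of the four pairs
  obtain ⟨b, hb, b', hb', hbb⟩ := one_lt_card.1 (show 1 < B.card by omega)
  obtain ⟨d, hd, d', hd', hdd⟩ := one_lt_card.1 (show 1 < D.card by omega)
  have hbad : ∀ (x y p r : ℕ), (¬ ∃ b ∈ ({x, y} : Finset ℕ), b ≠ p ∧ b ≠ r) →
      (x = p ∨ x = r) ∧ (y = p ∨ y = r) := by
    intro x y p r h
    push Not at h
    have hx := h x (by simp)
    have hy := h y (by simp)
    constructor
    · by_cases hxp : x = p
      · exact Or.inl hxp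
      · exact Or.inr (hx hxp)
    · by_cases hyp : y = p
      · exact Or.inl hyp
      · exact Or.inr (hy hyp)
  by_contra hcon
  have key : ∀ p ∈ A, ∀ r ∈ C, ((b = p ∨ b = r) ∧ (b' = p ∨ b' = r)) ∨
      ((d = p ∨ d = r) ∧ (d' = p ∨ d' = r)) := by
    intro p hp r hr
    by_contra hk
    rw [not_or] at hk
    apply hcon
    apply done p hp r hr
    · by_contra h
      apply hk.1
      apply hbad
      rintro ⟨z, hz, hz'⟩
      apply h
      rw [mem_insert, mem_singleton] at hz
      rcases hz with rfl | rfl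
      · exact ⟨_, hb, hz'⟩
      · exact ⟨_, hb', hz'⟩
    · by_contra h
      apply hk.2
      apply hbad
      rintro ⟨z, hz, hz'⟩
      apply h
      rw [mem_insert, mem_singleton] at hz
      rcases hz with rfl | rfl
      · exact ⟨_, hd, hz'⟩
      · exact ⟨_, hd', hz'⟩
  have hac : ∀ p ∈ A, ∀ r ∈ C, p ≠ r := fun p hp r hr h => h1 p hp (h ▸ hr)
  have k1 := key a ha c hc
  have k2 := key a ha c' hc'
  have k3 := key a' ha' c hc
  have k4 := key a' ha' c' hc'
  have n1 := hac a ha c hc
  have n2 := hac a ha c' hc'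
  have n3 := hac a' ha' c hc
  have n4 := hac a' ha' c' hc'
  omega

/-- colouring the four vertices of a 4-cycle of vertices of degree four -/
lemma extend_four (L : V → Finset ℕ) (W : Finset V) (a b x y : V) (ha : a ∈ W) (hb : b ∈ W)
    (hx : x ∈ W) (hy : y ∈ W) (h1 : G.Adj a b) (h2 : G.Adj b x) (h3 : G.Adj x y)
    (h4 : G.Adj y a) (hax : a ≠ x) (hby : b ≠ y) (nax : ¬ G.Adj a x) (nby : ¬ G.Adj b y)
    (hL : ∀ v ∈ W, 4 ≤ (L v).card)
    (da : (W.filter (G.Adj a)).card = 4) (db : (W.filter (G.Adj b)).card = 4)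
    (dx : (W.filter (G.Adj x)).card = 4) (dy : (W.filter (G.Adj y)).card = 4)
    (hc : Col G L (W \ {a, b, x, y})) : Col G L W := by
  obtain ⟨c, hc1, hc2⟩ := hc
  -- the remaining colours
  set S := W \ {a, b, x, y} with hS
  let L' : V → Finset ℕ := fun v => L v \ (S.filter (G.Adj v)).image c
  have hL' : ∀ v m n, v ∈ W → m ∈ W → n ∈ W → G.Adj v m → G.Adj v n → m ≠ n →
      m ∉ S → n ∉ S → (W.filter (G.Adj v)).card = 4 → 2 ≤ (L' v).card := by
    intro v m n hv hm hn am an hmn hmS hnS hd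
    have e1 : (S.filter (G.Adj v)).card + 2 ≤ 4 := by
      rw [← hd, ← card_pair hmn, ← card_union_of_disjoint]
      · apply card_le_card
        intro z hz
        rcases mem_union.1 hz with hz | hz
        · rw [mem_filter] at hz ⊢
          exact ⟨(mem_sdiff.1 hz.1).1, hz.2⟩
        · rw [mem_insert, mem_singleton] at hz
          rcases hz with rfl | rfl
          · exact mem_filter.2 ⟨hm, am⟩
          · exact mem_filter.2 ⟨hn, an⟩
      · rw [Finset.disjoint_left]
        intro z hz hz'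
        rw [mem_insert, mem_singleton] at hz'
        rcases hz' with rfl | rfl
        · exact hmS (mem_filter.1 hz).1
        · exact hnS (mem_filter.1 hz).1
    have e2 := le_card_sdiff ((S.filter (G.Adj v)).image c) (L v)
    have e3 : ((S.filter (G.Adj v)).image c).card ≤ (S.filter (G.Adj v)).card := card_image_le
    have e4 := hL v hv
    change 2 ≤ (L v \ (S.filter (G.Adj v)).image c).card
    omega
  have naS : a ∉ S := by simp [hS]
  have nbS : b ∉ S := by simp [hS]
  have nxS : x ∉ S := by simp [hS]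
  have nyS : y ∉ S := by simp [hS]
  obtain ⟨ka, hka, kb, hkb, kx, hkx, ky, hky, k1, k2, k3, k4⟩ :=
    four_cycle_choose (L' a) (L' b) (L' x) (L' y)
      (hL' a b y ha hb hy h1 h4.symm hby nbS nyS da)
      (hL' b a x hb ha hx h1.symm h2 hax naS nxS db)
      (hL' x b y hx hb hy h2.symm h3 hby nbS nyS dx)
      (hL' y a x hy ha hx h4 h3.symm hax naS nxS dy)
  let c' : V → ℕ := fun v => if v = a then ka else if v = b then kb else if v = x then kx
    else if v = y then ky else c v
  have ca : c' a = ka := by simp [c']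
  have cb : c' b = kb := by simp [c', h1.ne']
  have cx : c' x = kx := by simp [c', hax.symm, h2.ne']
  have cy : c' y = ky := by simp [c', h4.ne, hby.symm, h3.ne']
  have cS : ∀ v ∈ S, c' v = c v := by
    intro v hv
    have e1 : v ≠ a := fun h => naS (h ▸ hv)
    have e2 : v ≠ b := fun h => nbS (h ▸ hv)
    have e3 : v ≠ x := fun h => nxS (h ▸ hv)
    have e4 : v ≠ y := fun h => nyS (h ▸ hv)
    simp [c', e1, e2, e3, e4]
  have hcases : ∀ v ∈ W, v = a ∨ v = b ∨ v = x ∨ v = y ∨ v ∈ S := by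
    intro v hv
    by_cases h : v ∈ S
    · tauto
    · rw [hS, mem_sdiff, not_and, not_not] at h
      have := h hv
      simp only [mem_insert, mem_singleton] at this
      tauto
  have hout : ∀ v w k, w ∈ S → G.Adj v w → k ∈ L' v → k ≠ c w := by
    intro v w k hw hadj hk h
    change k ∈ L v \ _ at hk
    rw [mem_sdiff] at hk
    exact hk.2 (mem_image.2 ⟨w, mem_filter.2 ⟨hw, hadj⟩, h.symm⟩)
  have hin : ∀ v k, k ∈ L' v → k ∈ L v := fun v k hk => (mem_sdiff.1 hk).1
  refine ⟨c', ?_, ?_⟩
  · intro v hv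
    rcases hcases v hv with rfl | rfl | rfl | rfl | h
    · rw [ca]; exact hin _ _ hka
    · rw [cb]; exact hin _ _ hkb
    · rw [cx]; exact hin _ _ hkx
    · rw [cy]; exact hin _ _ hky
    · rw [cS v h]; exact hc1 v h
  · have half : ∀ u ∈ W, ∀ w ∈ W, G.Adj u w → (u = a ∨ u = x) → c' u ≠ c' w := by
      intro u hu w hw hadj hu'
      rcases hu' with rfl | rfl
      · rw [ca]
        rcases hcases w hw with rfl | rfl | rfl | rfl | h
        · exact absurd hadj (G.loopless.irrefl _)
        · rw [cb]; exact k1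
        · exact absurd hadj nax
        · rw [cy]; exact k4.symm
        · rw [cS w h]; exact hout _ _ _ h hadj hka
      · rw [cx]
        rcases hcases w hw with rfl | rfl | rfl | rfl | h
        · exact absurd hadj.symm nax
        · rw [cb]; exact k2.symm
        · exact absurd hadj (G.loopless.irrefl _)
        · rw [cy]; exact k3
        · rw [cS w h]; exact hout _ _ _ h hadj hkx
    have half' : ∀ u ∈ W, ∀ w ∈ W, G.Adj u w → (u = b ∨ u = y) → c' u ≠ c' w := by
      intro u hu w hw hadj hu'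
      rcases hu' with rfl | rfl
      · rw [cb]
        rcases hcases w hw with rfl | rfl | rfl | rfl | h
        · rw [ca]; exact k1.symm
        · exact absurd hadj (G.loopless.irrefl _)
        · rw [cx]; exact k2
        · exact absurd hadj nby
        · rw [cS w h]; exact hout _ _ _ h hadj hkb
      · rw [cy]
        rcases hcases w hw with rfl | rfl | rfl | rfl | h
        · rw [ca]; exact k4
        · exact absurd hadj.symm nby
        · rw [cx]; exact k3.symm
        · exact absurd hadj (G.loopless.irrefl _)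
        · rw [cS w h]; exact hout _ _ _ h hadj hky
    intro u hu w hw hadj
    rcases hcases u hu with h | h | h | h | h
    · exact half u hu w hw hadj (Or.inl h)
    · exact half' u hu w hw hadj (Or.inl h)
    · exact half u hu w hw hadj (Or.inr h)
    · exact half' u hu w hw hadj (Or.inr h)
    · rcases hcases w hw with h' | h' | h' | h' | h'
      · exact (half w hw u hu hadj.symm (Or.inl h')).symm
      · exact (half' w hw u hu hadj.symm (Or.inl h')).symm
      · exact (half w hw u hu hadj.symm (Or.inr h')).symm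
      · exact (half' w hw u hu hadj.symm (Or.inr h')).symm
      · rw [cS u h, cS w h']; exact hc2 u h w h' hadj

omit [DecidableEq V] [DecidableRel G.Adj] in
/-- a minimal subset of `W` which is not colourable -/
lemma exists_minimal (L : V → Finset ℕ) (W : Finset V) (h : ¬ Col G L W) :
    ∃ U ⊆ W, ¬ Col G L U ∧ ∀ T, T ⊂ U → Col G L T := by
  induction W using Finset.strongInduction with
  | _ W ih =>
    by_cases hmin : ∀ T, T ⊂ W → Col G L T
    · exact ⟨W, Subset.refl _, h, hmin⟩
    · push Not at hmin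
      obtain ⟨T, hT, hT'⟩ := hmin
      obtain ⟨U, hU, hU1, hU2⟩ := ih T hT hT'
      exact ⟨U, hU.trans hT.1, hU1, hU2⟩

end Pool.Agent.L7h33.LP
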