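import Pool.Agent.L7h33.LP.Homot

/-!
# Subgraphs of minimum degree four without 4-cycles of vertices of degree four
-/

set_option autoImplicit false

namespace Pool.Agent.L7h33.LP

open SimpleGraph Finset

variable {V : Type*} {H : SimpleGraph V} [Fintype V] [DecidableEq V] [DecidableRel H.Adj]

/-- the degree of `v` inside `W` -/
def dW (G : SimpleGraph V) [DecidableRel G.Adj] (W : Finset V) (v : V) : ℕ :=
  (W.filter (G.Adj v)).card

open Classical in
/-- number of edges inside `W` which contain `x` -/
lemma card_inc (G : SimpleGraph V) [DecidableRel G.Adj] (hGH : G ≤ H) (W : Finset V) (x : V)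
    (hx : x ∈ W) :
    (univ.filter fun e : H.edgeSet => inK G W e ∧ x ∈ e.1).card = dW G W x := by
  symm
  apply card_bij (fun y (hy : y ∈ W.filter (G.Adj x)) =>
    dedge (⟨(x, y), hGH (mem_filter.1 hy).2⟩ : H.Dart))
  · intro y hy
    simp only [mem_filter, mem_univ, true_and]
    refine ⟨?_, ?_⟩
    · rw [inK_dedge]
      exact ⟨(mem_filter.1 hy).2, hx, (mem_filter.1 hy).1⟩
    · exact Sym2.mem_mk_left x y
  · intro y hy y' hy' h
    have h' : s(x, y) = s(x, y') := congrArg Subtype.val h
    rwa [Sym2.congr_right] at h'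
  · intro e he
    simp only [mem_filter, mem_univ, true_and] at he
    obtain ⟨h1, h2⟩ := he
    obtain ⟨y, hy⟩ := Sym2.mem_iff_exists.1 h2
    have hadj : G.Adj x y := by
      have := h1.1
      rw [hy] at this
      exact this
    refine ⟨y, mem_filter.2 ⟨h1.2 y (by rw [hy]; exact Sym2.mem_mk_right x y), hadj⟩, ?_⟩
    apply Subtype.ext
    exact hy.symm

open Classical in
lemma handshake (G : SimpleGraph V) [DecidableRel G.Adj] (hGH : G ≤ H) (W : Finset V) :
    ∑ v ∈ W, dW G W v = 2 * Nat.card {e : H.edgeSet // inK G W e} := by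
  have h1 : ∑ v ∈ W, dW G W v =
      ∑ v ∈ W, ∑ e : H.edgeSet, if inK G W e ∧ v ∈ e.1 then 1 else 0 := by
    apply sum_congr rfl
    intro v hv
    rw [← card_inc G hGH W v hv, card_filter]
  rw [h1, sum_comm, Nat.card_eq_fintype_card, Fintype.card_subtype, card_filter, mul_sum]
  apply sum_congr rfl
  intro e _
  by_cases he : inK G W e
  · simp only [he, true_and, if_true, mul_one]
    rw [← card_filter]
    obtain ⟨d, rfl⟩ := dedge_surj e
    have : W.filter (fun v => v ∈ (dedge d).1) = {d.fst, d.snd} := by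
      ext v
      have h2 := ((inK_dedge G W d).1 he).2
      simp only [mem_filter, mem_insert, mem_singleton]
      change v ∈ W ∧ v ∈ (s(d.fst, d.snd) : Sym2 V) ↔ _
      rw [Sym2.mem_iff]
      constructor
      · exact fun h => h.2
      · rintro (rfl | rfl)
        · exact ⟨h2.1, Or.inl rfl⟩
        · exact ⟨h2.2, Or.inr rfl⟩
    rw [this, card_pair d.adj.ne]
  · simp [he]

open Classical in
/-- the boundary of a face of the subgraph -/
noncomputable def bd (R : Rotation H) (P : H.edgeSet → Prop) (k : FK R P) : Finset H.edgeSet :=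
  univ.filter fun e => dK R P (Pi.single k 1) e ≠ 0

open Classical in
lemma bd_sum (R : Rotation H) (P : H.edgeSet → Prop) [Fintype (FK R P)] (Q : H.edgeSet → Prop) :
    ∑ k : FK R P, ((bd R P k).filter Q).card ≤
      2 * (univ.filter fun e : H.edgeSet => P e ∧ Q e).card := by
  have h1 : ∀ k : FK R P, ((bd R P k).filter Q).card =
      ∑ e : H.edgeSet, if (dK R P (Pi.single k 1) e ≠ 0 ∧ Q e) then 1 else 0 := by
    intro k
    unfold bd
    rw [filter_filter, card_filter]
  simp only [h1]
  rw [sum_comm, card_filter, mul_sum]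
  apply sum_le_sum
  intro e _
  obtain ⟨d, rfl⟩ := dedge_surj e
  by_cases he : P (dedge d) ∧ Q (dedge d)
  · rw [if_pos he, ← card_filter]
    have : (univ.filter fun k : FK R P =>
        dK R P (Pi.single k 1) (dedge d) ≠ 0 ∧ Q (dedge d)) ⊆
        {clsK R P (R.fc d), clsK R P (R.fc d.symm)} := by
      intro k hk
      simp only [mem_filter, mem_univ, true_and] at hk
      rw [mem_insert, mem_singleton]
      by_contra hcon
      push Not at hcon
      apply hk.1
      rw [dK_apply, Pi.single_eq_of_ne hcon.1.symm, Pi.single_eq_of_ne hcon.2.symm, add_zero]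
    exact (card_le_card this).trans (card_le_two)
  · rw [if_neg he, mul_zero, Nat.le_zero]
    apply sum_eq_zero
    intro k _
    rw [if_neg]
    rintro ⟨h2, h3⟩
    apply he
    refine ⟨?_, h3⟩
    by_contra hcon
    exact h2 (dK_mem R P _ _ hcon)

open Classical in
/-- the number of boundary edges at a vertex -/
noncomputable def inc (R : Rotation H) (P : H.edgeSet → Prop) (k : FK R P) (x : V) : ℕ :=
  ((bd R P k).filter fun e => x ∈ e.1).card

lemma inc_sum (R : Rotation H) (G : SimpleGraph V) [DecidableRel G.Adj] (hGH : G ≤ H)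
    (W : Finset V) [Fintype (FK R (inK G W))] (x : V) (hx : x ∈ W) :
    ∑ k : FK R (inK G W), inc R (inK G W) k x ≤ 2 * dW G W x := by
  classical
  have h := bd_sum R (inK G W) (fun e => x ∈ e.1)
  rw [← card_inc G hGH W x hx]
  unfold inc
  convert h

lemma two_le_inc (R : Rotation H) (P : H.edgeSet → Prop) (k : FK R P) (p m n : V)
    (hpm : H.Adj p m) (hpn : H.Adj p n) (hmn : m ≠ n)
    (hm : dedge (⟨(p, m), hpm⟩ : H.Dart) ∈ bd R P k)
    (hn : dedge (⟨(p, n), hpn⟩ : H.Dart) ∈ bd R P k) : 2 ≤ inc R P k p := by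
  classical
  have hsub : ({dedge (⟨(p, m), hpm⟩ : H.Dart), dedge (⟨(p, n), hpn⟩ : H.Dart)} :
      Finset H.edgeSet) ⊆ (bd R P k).filter fun e => p ∈ e.1 := by
    intro e he
    rw [mem_insert, mem_singleton] at he
    rw [mem_filter]
    rcases he with rfl | rfl
    · exact ⟨hm, Sym2.mem_mk_left p m⟩
    · exact ⟨hn, Sym2.mem_mk_left p n⟩
  have hne : dedge (⟨(p, m), hpm⟩ : H.Dart) ≠ dedge (⟨(p, n), hpn⟩ : H.Dart) := by
    intro h
    have h' : s(p, m) = s(p, n) := congrArg Subtype.val h
    rw [Sym2.congr_right] at h'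
    exact hmn h'
  have := card_le_card hsub
  rw [card_pair hne] at this
  unfold inc
  convert this

lemma bd_sub (R : Rotation H) (P : H.edgeSet → Prop) (k : FK R P) (e : H.edgeSet)
    (he : e ∈ bd R P k) : P e := by
  classical
  unfold bd at he
  simp only [mem_filter, mem_univ, true_and] at he
  by_contra hcon
  exact he (dK_mem R P _ _ hcon)

/-- if the subgraph has two faces, each of them has a boundary which contains a cycle -/
lemma bd_cycle (R : Rotation H) (hH : H.Connected) (P : H.edgeSet → Prop)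
    (hq : 2 ≤ Nat.card (FK R P)) (k : FK R P) : ∃ (v : V) (c : H.Walk v v), c.IsCycle ∧
      ∀ e : H.edgeSet, e.1 ∈ c.edges → e ∈ bd R P k := by
  classical
  have hne : dK R P (Pi.single k 1) ≠ 0 := by
    intro h0
    have h1 : ∀ k' : FK R P, k' = k := by
      intro k'
      obtain ⟨f, rfl⟩ : ∃ f, clsK R P f = k := Quot.exists_rep k
      obtain ⟨f', rfl⟩ : ∃ f, clsK R P f = k' := Quot.exists_rep k'
      have h2 := ker_d2_const R hH _ h0 f f'
      have h3 : (Pi.single (clsK R P f) 1 : FK R P → ZMod 2) (clsK R P f) =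
        (Pi.single (clsK R P f) 1 : FK R P → ZMod 2) (clsK R P f') := h2
      rw [Pi.single_eq_same] at h3
      by_contra hcon
      rw [Pi.single_eq_of_ne hcon] at h3
      exact one_ne_zero h3
    have : Nat.card (FK R P) ≤ 1 := by
      rw [Finite.card_le_one_iff_subsingleton]
      exact ⟨fun a b => (h1 a).trans (h1 b).symm⟩
    omega
  obtain ⟨v, c, hc, h⟩ := exists_cycle _ (dK_ker R P (Pi.single k 1)) hne
  refine ⟨v, c, hc, fun e he => ?_⟩
  unfold bd
  simp only [mem_filter, mem_univ, true_and]
  exact h e he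

omit [Fintype V] [DecidableRel H.Adj] in
lemma length_le_of_edges {v : V} (c : H.Walk v v) (hc : c.IsCycle) (S : Finset H.edgeSet)
    (h : ∀ e : H.edgeSet, e.1 ∈ c.edges → e ∈ S) : c.length ≤ S.card := by
  rw [← Walk.length_edges, ← List.toFinset_card_of_nodup hc.edges_nodup,
    ← card_map (Function.Embedding.subtype _)]
  apply card_le_card
  intro e he
  rw [List.mem_toFinset] at he
  rw [mem_map]
  exact ⟨⟨e, c.edges_subset_edgeSet he⟩, h _ he, rfl⟩

omit [Fintype V] [DecidableEq V] [DecidableRel H.Adj] in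
lemma four_cycle {v : V} (c : H.Walk v v) (hc : c.IsCycle) (hl : c.length = 4) :
    ∃ a b x y : V, H.Adj a b ∧ H.Adj b x ∧ H.Adj x y ∧ H.Adj y a ∧ a ≠ x ∧ b ≠ y ∧
      s(a, b) ∈ c.edges ∧ s(b, x) ∈ c.edges ∧ s(x, y) ∈ c.edges ∧
      s(y, a) ∈ c.edges := by
  match c, hc, hl with
  | .cons (v := b) h1 (.cons (v := x) h2 (.cons (v := y) h3 (.cons h4 .nil))), hc, _ =>
    refine ⟨v, b, x, y, h1, h2, h3, h4, ?_, ?_, by simp, by simp, by simp, by simp⟩
    · intro h
      have := hc.support_nodup
      simp [h] at this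
    · intro h
      have := hc.support_nodup
      simp [h] at this

/-- **The core of the proof.** In an even-faced graph of genus at most `g` whose noncontractible
cycles all have length at least `46 g + 6`, there is no induced subgraph of minimum degree at least
four in which every 4-cycle contains a vertex of degree at least five. -/
theorem core (R : Rotation H) (hH : H.Connected) (G : SimpleGraph V) [DecidableRel G.Adj]
    (hGH : G ≤ H) (hR : R.EvenFaced G) (g N : ℕ)
    (hchi : 2 - 2 * (g : ℤ) ≤ R.euler) (hN : 46 * g + 6 ≤ N)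
    (hNC : ∀ (v : V) (c : H.Walk v v), c.IsCycle → (∀ e ∈ c.edges, e ∈ G.edgeSet) →
      ¬ R.Contractible c → N ≤ c.length)
    (W : Finset V) (hW : W.Nonempty) (hdeg : ∀ v ∈ W, 4 ≤ dW G W v)
    (h4 : ∀ a b x y, a ∈ W → b ∈ W → x ∈ W → y ∈ W → G.Adj a b → G.Adj b x → G.Adj x y →
      G.Adj y a → a ≠ x → b ≠ y → dW G W a = 4 → dW G W b = 4 → dW G W x = 4 →
      dW G W y = 4 → False) : False := by
  classical
  set P : H.edgeSet → Prop := inK G W with hPdef
  have hPW : ∀ e, P e → ∀ x ∈ e.1, x ∈ W := fun e he => he.2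
  have : Fintype (FK R P) := Fintype.ofFinite _
  obtain ⟨w0, hw0⟩ := hW
  have hdart : Nonempty H.Dart := by
    have h := hdeg w0 hw0
    have h' : 0 < (W.filter (G.Adj w0)).card := by
      unfold dW at h; omega
    obtain ⟨y, hy⟩ := card_pos.1 h'
    exact ⟨⟨(w0, y), hGH (mem_filter.1 hy).2⟩⟩
  have hhand := handshake (H := H) G hGH W
  rw [← hPdef] at hhand
  set nK := Nat.card {e : H.edgeSet // P e} with hnK
  set q := Nat.card (FK R P) with hq
  have h4W : 4 * W.card ≤ 2 * nK := by
    rw [← hhand, mul_comm, ← smul_eq_mul, ← sum_const]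
    exact sum_le_sum fun v hv => hdeg v hv
  have hsmallc : ∀ (v : V) (c : H.Walk v v), c.IsCycle →
      (∀ e : H.edgeSet, e.1 ∈ c.edges → P e) → c.length < N →
      vec c ∈ LinearMap.range (d2 R) ∧ Even c.length := by
    intro v c hc hce hl
    have hcG : ∀ e ∈ c.edges, e ∈ G.edgeSet := fun e he =>
      (hce ⟨e, c.edges_subset_edgeSet he⟩ he).1
    have h1 : vec c ∈ LinearMap.range (d2 R) := by
      apply contractible_inv R
      by_contra hcon
      exact absurd (hNC v c hc hcG hcon) (not_le.2 hl)
    exact ⟨h1, even_of_contractible R G hR c hcG h1⟩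
  have hlen4 : ∀ (v : V) (c : H.Walk v v), c.IsCycle →
      (∀ e : H.edgeSet, e.1 ∈ c.edges → P e) → 4 ≤ c.length := by
    intro v c hc hce
    by_contra hcon
    have h3 := hc.three_le_length
    have := (hsmallc v c hc hce (by omega)).2
    rw [show c.length = 3 by omega] at this
    exact absurd this (by decide)
  -- the sizes of the boundaries
  have hbd4 : 2 ≤ q → ∀ k : FK R P, 4 ≤ (bd R P k).card := by
    intro hq2 k
    obtain ⟨v, c, hc, hce⟩ := bd_cycle R hH P hq2 k
    exact (hlen4 v c hc fun e he => bd_sub R P k e (hce e he)).trans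
      (length_le_of_edges c hc _ hce)
  have hbdsum : ∑ k : FK R P, (bd R P k).card ≤ 2 * nK := by
    have := bd_sum R P (fun _ => True)
    simp only [filter_true, and_true] at this
    rwa [hnK, Nat.card_eq_fintype_card, Fintype.card_subtype]
  have h4q : 2 ≤ q → 4 * q ≤ 2 * nK := by
    intro hq2
    refine le_trans ?_ hbdsum
    rw [hq, Nat.card_eq_fintype_card, ← card_univ, mul_comm, ← smul_eq_mul, ← sum_const]
    exact sum_le_sum fun k _ => hbd4 hq2 k
  by_cases hcase : W.card < N
  · -- all cycles in `W` are contractible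
    have hB := all_bounding R P (by
      intro v c hc hce
      apply (hsmallc v c hc hce _).1
      refine lt_of_le_of_lt ?_ hcase
      rw [← Nat.add_one_le_add_one_iff, ← Walk.length_support]
      have h1 := hc.support_nodup
      have h2 : c.support.tail.length ≤ W.card := by
        rw [← List.toFinset_card_of_nodup h1]
        apply card_le_card
        intro x hx
        rw [List.mem_toFinset] at hx
        have hx' : x ∈ c.support := List.mem_of_mem_tail hx
        obtain ⟨e, he, hxe⟩ := (Walk.mem_support_iff_exists_mem_edges_of_not_nil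
          hc.not_nil).1 hx'
        exact (hce ⟨e, c.edges_subset_edgeSet he⟩ he).2 x hxe
      rw [List.length_tail] at h2
      omega)
    have h1 := euler_ineq' R W ⟨w0, hw0⟩ P hPW hB
    have h2 : 2 ≤ q := by omega
    have h3 := h4q h2
    omega
  · have h1 := euler_ineq R hH W ⟨w0, hw0⟩ P hPW
    rw [← hnK, ← hq] at h1
    have hq2 : 2 ≤ q := by omega
    have h3 := h4q hq2
    -- vertices of degree at least five
    set X := W.filter (fun v => 4 < dW G W v) with hX
    set small := (univ : Finset (FK R P)).filter (fun k => (bd R P k).card ≤ 5) with hsm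
    have hsm1 : ∀ k ∈ small, 2 ≤ ∑ x ∈ X, inc R P k x := by
      intro k hk
      simp only [hsm, mem_filter, mem_univ, true_and] at hk
      obtain ⟨v, c, hc, hce⟩ := bd_cycle R hH P hq2 k
      have hcP : ∀ e : H.edgeSet, e.1 ∈ c.edges → P e := fun e he => bd_sub R P k e (hce e he)
      have hl := length_le_of_edges c hc _ hce
      have hev := (hsmallc v c hc hcP (by omega)).2
      have h44 := hlen4 v c hc hcP
      have hl4 : c.length = 4 := by
        rcases (show c.length = 4 ∨ c.length = 5 by omega) with h | h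
        · exact h
        · rw [h] at hev
          exact absurd hev (by decide)
      obtain ⟨a, b, x, y, a1, a2, a3, a4, hax, hby, e1, e2, e3, e4⟩ := four_cycle c hc hl4
      -- two boundary edges at each vertex of the 4-cycle
      have two : ∀ (p m n : V) (hpm : H.Adj p m) (hpn : H.Adj p n), m ≠ n → s(p, m) ∈ c.edges →
          s(p, n) ∈ c.edges → p ∈ X → 2 ≤ ∑ x ∈ X, inc R P k x := by
        intro p m n hpm hpn hmn hm hn hpX
        exact le_trans (two_le_inc R P k p m n hpm hpn hmn (hce _ hm) (hce _ hn))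
          (single_le_sum (f := fun x => inc R P k x) (fun _ _ => Nat.zero_le _) hpX)
      have inW : ∀ p m : V, ∀ hpm : H.Adj p m, s(p, m) ∈ c.edges → G.Adj p m ∧ p ∈ W := by
        intro p m hpm hm
        have := (inK_dedge G W ⟨(p, m), hpm⟩).1 (hcP (dedge ⟨(p, m), hpm⟩) hm)
        exact ⟨this.1, this.2.1⟩
      obtain ⟨b1, ha⟩ := inW a b a1 e1
      obtain ⟨b2, hb⟩ := inW b x a2 e2
      obtain ⟨b3, hx⟩ := inW x y a3 e3
      obtain ⟨b4, hy⟩ := inW y a a4 e4
      have e1' : s(b, a) ∈ c.edges := by rwa [Sym2.eq_swap]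
      have e2' : s(x, b) ∈ c.edges := by rwa [Sym2.eq_swap]
      have e3' : s(y, x) ∈ c.edges := by rwa [Sym2.eq_swap]
      have e4' : s(a, y) ∈ c.edges := by rwa [Sym2.eq_swap]
      by_contra hcon
      have hnotX : ∀ p ∈ W, p ∉ X → dW G W p = 4 := by
        intro p hp hpX
        have := hdeg p hp
        by_contra hne
        exact hpX (by simp only [hX, mem_filter]; exact ⟨hp, by omega⟩)
      exact h4 a b x y ha hb hx hy b1 b2 b3 b4 hax hby
        (hnotX a ha fun h => hcon (two a b y a1 a4.symm hby e1 e4' h))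
        (hnotX b hb fun h => hcon (two b a x a1.symm a2 hax e1' e2 h))
        (hnotX x hx fun h => hcon (two x b y a2.symm a3 hby e2' e3 h))
        (hnotX y hy fun h => hcon (two y x a a3.symm a4 hax.symm e3' e4 h))
    have hsm2 : 2 * small.card ≤ 2 * ∑ x ∈ X, dW G W x := by
      calc 2 * small.card = ∑ _k ∈ small, 2 := by rw [sum_const, smul_eq_mul, mul_comm]
        _ ≤ ∑ k ∈ small, ∑ x ∈ X, inc R P k x :=
          sum_le_sum hsm1
        _ ≤ ∑ k : FK R P, ∑ x ∈ X, inc R P k x :=
          sum_le_sum_of_subset (subset_univ _)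
        _ = ∑ x ∈ X, ∑ k : FK R P, inc R P k x := sum_comm
        _ ≤ ∑ x ∈ X, 2 * dW G W x := by
          apply sum_le_sum
          intro x hx
          exact inc_sum R G hGH W x (mem_filter.1 hx).1
        _ = 2 * ∑ x ∈ X, dW G W x := by rw [mul_sum]
    have hX5 : ((∑ x ∈ X, dW G W x : ℕ) : ℤ) ≤ 5 * (2 * (nK : ℤ) - 4 * W.card) := by
      have e1 : 2 * (nK : ℤ) - 4 * W.card = ∑ v ∈ W, ((dW G W v : ℤ) - 4) := by
        rw [sum_sub_distrib, ← Nat.cast_sum, hhand, sum_const]
        push_cast
        ring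
      rw [e1, mul_sum, Nat.cast_sum]
      calc ∑ x ∈ X, (dW G W x : ℤ) ≤ ∑ x ∈ X, 5 * ((dW G W x : ℤ) - 4) := by
            apply sum_le_sum
            intro x hx
            have := (mem_filter.1 hx).2
            omega
        _ ≤ ∑ x ∈ W, 5 * ((dW G W x : ℤ) - 4) := by
            apply sum_le_sum_of_subset_of_nonneg (filter_subset _ _)
            intro x hx _
            have := hdeg x hx
            omega
    have hsum6 : 6 * q ≤ ∑ k : FK R P, (bd R P k).card + 2 * small.card := by
      have e2 : 2 * small.card = ∑ k : FK R P, if (bd R P k).card ≤ 5 then 2 else 0 := by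
        rw [← sum_filter, sum_const, smul_eq_mul, mul_comm]
      rw [e2, ← sum_add_distrib, hq, Nat.card_eq_fintype_card, ← card_univ, mul_comm,
        ← smul_eq_mul, ← sum_const]
      apply sum_le_sum
      intro k _
      have := hbd4 hq2 k
      split_ifs with h <;> omega
    omega

end Pool.Agent.L7h33.LP
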