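import Mathlib

/-!
# Graphs embedded in closed orientable surfaces

A cellular embedding of a connected graph `H` in a closed oriented surface `S` is given by its
rotation system: for every vertex, the cyclic order of the darts (oriented edges) with this tail.
The faces are the orbits of the face permutation, the genus of `S` is given by Euler's formula, and
homotopy of walks in `S` is generated by insertions and deletions of spurs `v w v` and of facial
walks (the fundamental group of `S` is the edge-path group).

An arbitrary embedding of a graph `G` in `S`, cellular or not, is a subgraph `G ≤ H` of such a
graph `H`: every embedded graph can be extended to a cellularly embedded connected graph. The faces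
of `G` in `S` are then the classes of faces of `H` which are connected with each other across edges
which are not in `G`. A cellular embedding of a connected graph `G` is the case `H = G`; then the
faces of `G` are the orbits of the face permutation.
-/

set_option autoImplicit false

namespace Pool.Agent.L7h33.LP

open SimpleGraph

variable {V : Type*} {H : SimpleGraph V}

/-- A rotation system of `H`: a permutation `next` of the darts whose cycles are the sets of all
darts with a common tail (`next d` is the dart which follows `d` in the cyclic order around the
tail of `d`). -/
structure Rotation (H : SimpleGraph V) where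
  /-- the next dart around the tail -/
  next : Equiv.Perm H.Dart
  /-- its cycles are the sets of darts with a common tail -/
  sameCycle_iff : ∀ d d' : H.Dart, next.SameCycle d d' ↔ d.fst = d'.fst

/-- The reversal of darts, as a permutation. -/
def rev (H : SimpleGraph V) : Equiv.Perm H.Dart :=
  Function.Involutive.toPerm Dart.symm Dart.symm_involutive

/-- The face permutation: a facial walk which passes the dart `d` continues with the dart which
follows the reversed dart of `d` in the cyclic order around the head of `d`. -/
def Rotation.face (R : Rotation H) : Equiv.Perm H.Dart := (rev H).trans R.next

/-- The faces of `H`: the orbits of the face permutation. -/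
def Rotation.Face (R : Rotation H) : Type _ := Quotient (Equiv.Perm.SameCycle.setoid R.face)

/-- The face on the left of a dart. -/
def Rotation.fc (R : Rotation H) (d : H.Dart) : R.Face := Quotient.mk _ d

/-- The Euler characteristic `|V| - |E| + |F|` (of a connected graph with at least one edge). -/
noncomputable def Rotation.euler (R : Rotation H) : ℤ :=
  (Nat.card V : ℤ) - Nat.card H.edgeSet + Nat.card R.Face

/-- The closed walk `w` is a facial walk of `H`: it starts with a dart `d` and follows the whole
orbit of `d` under the face permutation. -/
def Rotation.IsFacial (R : Rotation H) {v : V} (w : H.Walk v v) : Prop :=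
  ∃ d : H.Dart, w.darts = List.iterate R.face d (Function.minimalPeriod R.face d)

/-- Homotopy of walks with fixed end vertices in the surface: the equivalence relation generated
by the deletion of spurs `v w v` and of facial walks. -/
inductive Rotation.Homotopic (R : Rotation H) : ∀ {u v : V}, H.Walk u v → H.Walk u v → Prop
  | refl {u v : V} (p : H.Walk u v) : R.Homotopic p p
  | symm {u v : V} {p q : H.Walk u v} : R.Homotopic p q → R.Homotopic q p
  | trans {u v : V} {p q r : H.Walk u v} : R.Homotopic p q → R.Homotopic q r → R.Homotopic p r
  | spur {u v w x : V} (p : H.Walk u v) (h : H.Adj v w) (q : H.Walk v x) :
      R.Homotopic (p.append (.cons h (.cons h.symm q))) (p.append q)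
  | facial {u v x : V} (p : H.Walk u v) (f : H.Walk v v) (q : H.Walk v x) (hf : R.IsFacial f) :
      R.Homotopic (p.append (f.append q)) (p.append q)

/-- A closed walk is contractible if it is homotopic to a point. -/
def Rotation.Contractible (R : Rotation H) {v : V} (c : H.Walk v v) : Prop :=
  R.Homotopic c .nil

/-- The faces of a subgraph `G` of `H` in the surface: two faces of `H` belong to the same face of
`G` if they are connected across edges of `H` which are not in `G`. -/
def Rotation.FaceOf (R : Rotation H) (G : SimpleGraph V) : Type _ :=
  Quot fun f f' : R.Face => ∃ d : H.Dart, ¬ G.Adj d.fst d.snd ∧ f = R.fc d ∧ f' = R.fc d.symm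

/-- The length of a face of `G`: the number of darts of `G` which have the face on their left, that
is, the sum of the lengths of the facial boundary walks of the face. -/
noncomputable def Rotation.lengthOf (R : Rotation H) (G : SimpleGraph V) (k : R.FaceOf G) : ℕ :=
  Nat.card {d : H.Dart // G.Adj d.fst d.snd ∧ (Quot.mk _ (R.fc d) : R.FaceOf G) = k}

/-- All faces of `G` have even length. -/
def Rotation.EvenFaced (R : Rotation H) (G : SimpleGraph V) : Prop :=
  ∀ k : R.FaceOf G, Even (R.lengthOf G k)

/-- `G` is `k`-list colourable: for all lists with at least `k` colours at every vertex there is
a proper colouring with colours from the lists. -/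
def ListColourable (G : SimpleGraph V) (k : ℕ) : Prop :=
  ∀ L : V → Finset ℕ, (∀ v, k ≤ (L v).card) →
    ∃ c : V → ℕ, (∀ v, c v ∈ L v) ∧ ∀ u v, G.Adj u v → c u ≠ c v

end Pool.Agent.L7h33.LP
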