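import Pool.Agent.L7h33.LP.Alg

/-!
# Homotopy and mod 2 homology of walks
-/

set_option autoImplicit false

namespace Pool.Agent.L7h33.LP

open SimpleGraph Finset

variable {V : Type*} {H : SimpleGraph V} [Fintype V] [DecidableEq V] [DecidableRel H.Adj]

/-- the 1-chain of a list of darts -/
def vecL (l : List H.Dart) : H.edgeSet → ZMod 2 := (l.map fun d => Pi.single (dedge d) 1).sum

/-- the 1-chain of a walk -/
def vec {u v : V} (p : H.Walk u v) : H.edgeSet → ZMod 2 := vecL p.darts

omit [Fintype V] [DecidableRel H.Adj] in
lemma vecL_append (l l' : List H.Dart) : vecL (l ++ l') = vecL l + vecL l' := by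
  simp [vecL]

omit [Fintype V] [DecidableRel H.Adj] in
lemma vecL_cons (d : H.Dart) (l : List H.Dart) :
    vecL (d :: l) = Pi.single (dedge d) 1 + vecL l := by
  simp [vecL]

omit [Fintype V] [DecidableRel H.Adj] in
lemma vec_append {u v w : V} (p : H.Walk u v) (q : H.Walk v w) :
    vec (p.append q) = vec p + vec q := by
  simp [vec, vecL_append]

omit [Fintype V] [DecidableRel H.Adj] in
lemma vecL_apply (l : List H.Dart) (e : H.edgeSet) :
    vecL l e = ((l.map Dart.edge).count e.1 : ZMod 2) := by
  induction l with
  | nil => simp [vecL]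
  | cons d l ih =>
    rw [vecL_cons, Pi.add_apply, ih, List.map_cons, List.count_cons, Pi.single_apply]
    by_cases h : e = dedge d
    · have : (d.edge == e.1) = true := by rw [h]; simp [dedge]
      rw [if_pos h, this]
      push_cast
      simp only [if_true]
      ring
    · have : (d.edge == e.1) = false := by
        simp only [beq_eq_false_iff_ne, ne_eq]
        intro h'
        exact h (Subtype.ext h'.symm)
      rw [if_neg h, this]
      simp

omit [Fintype V] [DecidableRel H.Adj] in
lemma vec_apply {u v : V} (p : H.Walk u v) (hp : p.IsTrail) (e : H.edgeSet) :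
    vec p e = if e.1 ∈ p.edges then 1 else 0 := by
  unfold vec
  rw [vecL_apply]
  change (p.edges.count e.1 : ZMod 2) = _
  by_cases h : e.1 ∈ p.edges
  · rw [if_pos h, List.count_eq_one_of_mem hp.edges_nodup h]
    simp
  · rw [if_neg h, List.count_eq_zero_of_not_mem h]
    simp

omit [Fintype V] [DecidableEq V] [DecidableRel H.Adj] in
lemma nodup_iterate (R : Rotation H) (d : H.Dart) :
    (List.iterate R.face d (Function.minimalPeriod R.face d)).Nodup := by
  rw [← List.range_map_iterate]
  apply List.Nodup.map_on _ List.nodup_range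
  intro i hi j hj h
  exact Function.iterate_injOn_Iio_minimalPeriod (f := R.face) (x := d)
    (List.mem_range.1 hi) (List.mem_range.1 hj) h

omit [DecidableEq V] in
lemma mem_iterate (R : Rotation H) (d y : H.Dart) :
    y ∈ List.iterate R.face d (Function.minimalPeriod R.face d) ↔ R.fc y = R.fc d := by
  rw [← List.range_map_iterate, List.mem_map, eq_comm (a := R.fc y), fc_eq_iff]
  constructor
  · rintro ⟨i, _, rfl⟩
    refine ⟨i, ?_⟩
    rw [zpow_natCast, Equiv.Perm.iterate_eq_pow]
  · intro h
    obtain ⟨i, hi⟩ := h.exists_nat_pow_eq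
    refine ⟨i % Function.minimalPeriod R.face d, ?_, ?_⟩
    · rw [List.mem_range]
      apply Nat.mod_lt
      exact Function.minimalPeriod_pos_of_mem_periodicPts
        (R.face.injective.mem_periodicPts d)
    · rw [Function.iterate_mod_minimalPeriod_eq, Equiv.Perm.iterate_eq_pow, hi]

open Classical in
lemma vecL_iterate (R : Rotation H) (d : H.Dart) :
    vecL (List.iterate R.face d (Function.minimalPeriod R.face d)) =
      d2 R (fun f => if f = R.fc d then 1 else 0) := by
  unfold vecL
  rw [← List.sum_toFinset _ (nodup_iterate R d)]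
  have h1 : (List.iterate R.face d (Function.minimalPeriod R.face d)).toFinset =
      univ.filter fun y => R.fc y = R.fc d := by
    ext y
    rw [List.mem_toFinset, mem_iterate]
    simp
  rw [h1]
  ext e
  change _ = ∑ y : H.Dart with dedge y = e, (if R.fc y = R.fc d then (1 : ZMod 2) else 0)
  rw [Finset.sum_apply, sum_filter, sum_filter]
  apply sum_congr rfl
  intro y _
  by_cases h : R.fc y = R.fc d <;> by_cases h' : dedge y = e
  · simp [h, h']
  · simp [h, h']
  · simp [h, h']
  · simp [h, h']

/-- homotopic walks are homologous mod 2 -/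
lemma homotopic_inv (R : Rotation H) {u v : V} {p q : H.Walk u v}
    (h : R.Homotopic p q) : vec p + vec q ∈ LinearMap.range (d2 R) := by
  classical
  have add_self : ∀ z : H.edgeSet → ZMod 2, z + z = 0 := by
    intro z
    ext e
    exact CharTwo.add_self_eq_zero _
  induction h with
  | refl p => rw [add_self]; exact Submodule.zero_mem _
  | symm _ ih => rw [add_comm]; exact ih
  | @trans v p q r _ _ ih1 ih2 =>
    have : vec p + vec r = (vec p + vec q) + (vec q + vec r) := by
      rw [add_assoc, ← add_assoc (vec q) (vec q), add_self, zero_add]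
    rw [this]
    exact Submodule.add_mem _ ih1 ih2
  | @spur v w x p h q =>
    have : vec (p.append (.cons h (.cons h.symm q))) = vec (p.append q) := by
      rw [vec_append, vec_append]
      congr 1
      unfold vec
      rw [Walk.darts_cons, Walk.darts_cons, vecL_cons, vecL_cons, ← add_assoc]
      have : dedge (⟨(w, v), h.symm⟩ : H.Dart) = dedge (⟨(v, w), h⟩ : H.Dart) :=
        dedge_symm ⟨(v, w), h⟩
      rw [this, add_self, zero_add]
    rw [this, add_self]
    exact Submodule.zero_mem _
  | @facial v x p f q hf =>
    obtain ⟨d, hd⟩ := hf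
    have h1 : vec (p.append (f.append q)) + vec (p.append q) = vec f := by
      rw [vec_append, vec_append, vec_append]
      have : vec p + (vec f + vec q) + (vec p + vec q) =
        (vec p + vec p) + (vec q + vec q) + vec f := by ring
      rw [this, add_self, add_self, zero_add, zero_add]
    rw [h1]
    unfold vec
    rw [hd, vecL_iterate]
    exact ⟨_, rfl⟩

lemma contractible_inv (R : Rotation H) {v : V} {c : H.Walk v v}
    (h : R.Contractible c) : vec c ∈ LinearMap.range (d2 R) := by
  have := homotopic_inv R h
  have h0 : vec (Walk.nil : H.Walk v v) = 0 := by simp [vec, vecL]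
  rwa [h0, add_zero] at this

lemma sum_vecL (l : List H.Dart) : ∑ e, vecL l e = (l.length : ZMod 2) := by
  induction l with
  | nil => simp [vecL]
  | cons d l ih =>
    rw [vecL_cons, List.length_cons]
    simp only [Pi.add_apply]
    rw [sum_add_distrib, ih, sum_pi_single']
    simp [add_comm]

lemma even_of_sum_vec {v : V} (c : H.Walk v v) (h : ∑ e, vec c e = 0) : Even c.length := by
  unfold vec at h
  rw [sum_vecL, Walk.length_darts] at h
  rwa [← ZMod.natCast_eq_zero_iff_even]

/-- the cycles of `G` which are contractible have even length if `G` is even-faced -/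
lemma even_of_contractible (R : Rotation H) (G : SimpleGraph V) (hR : R.EvenFaced G) {v : V}
    (c : H.Walk v v) (hcG : ∀ e ∈ c.edges, e ∈ G.edgeSet)
    (h : vec c ∈ LinearMap.range (d2 R)) : Even c.length := by
  apply even_of_sum_vec
  apply sum_eq_zero_of_even R (fun e => e.1 ∈ G.edgeSet) _ _ _ h
  · intro k
    exact hR k
  · intro e he
    unfold vec
    rw [vecL_apply]
    change ((c.edges.count e.1 : ℕ) : ZMod 2) = 0
    rw [List.count_eq_zero_of_not_mem (fun hmem => he (hcG _ hmem))]
    simp

/-- a nonzero mod 2 cycle contains a cycle of the graph -/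
lemma exists_cycle (z : H.edgeSet → ZMod 2) (hz : d1 H z = 0) (hne : z ≠ 0) :
    ∃ (v : V) (c : H.Walk v v), c.IsCycle ∧ ∀ e : H.edgeSet, e.1 ∈ c.edges → z e ≠ 0 := by
  classical
  let J : SimpleGraph V :=
    { Adj := fun u v => ∃ h : H.Adj u v, z ⟨s(u, v), h⟩ ≠ 0
      symm := ⟨fun u v ⟨h, h'⟩ => ⟨h.symm, by
        have : (⟨s(v, u), h.symm⟩ : H.edgeSet) = ⟨s(u, v), h⟩ := Subtype.ext Sym2.eq_swap
        rwa [this]⟩⟩
      loopless := ⟨fun u ⟨h, _⟩ => H.loopless.irrefl u h⟩ }
  have hle : J ≤ H := fun u v ⟨h, _⟩ => h
  by_cases hac : J.IsAcyclic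
  · exfalso
    obtain ⟨e, he⟩ : ∃ e, z e ≠ 0 := by
      by_contra hcon
      push Not at hcon
      exact hne (funext hcon)
    obtain ⟨d, rfl⟩ := dedge_surj e
    have hV : Nonempty V := ⟨d.fst⟩
    obtain ⟨u, w, p, hp, hmax⟩ := Walk.exists_isPath_forall_isPath_length_le_length J
    have hlen : 1 ≤ p.length := by
      have hd : J.Adj d.fst d.snd := ⟨d.adj, he⟩
      have := hmax d.fst d.snd (.cons hd .nil) (by
        simp [Walk.isPath_def, hd.ne])
      simpa using this
    have hnil : ¬ p.Nil := by
      intro hn
      rw [← Walk.length_eq_zero_iff] at hn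
      omega
    have hadj := p.adj_snd hnil
    have huniq : ∀ x, J.Adj u x → x = p.snd := by
      intro x hx
      apply hac.eq_snd_of_adj_start hp hx
      by_contra hxs
      have := hmax x w (.cons hx.symm p) (hp.cons hxs)
      simp at this
    obtain ⟨ha, hza⟩ := hadj
    have := congrFun hz u
    rw [d1_apply, sum_eq_single (⟨(u, p.snd), ha⟩ : H.Dart)] at this
    · exact hza this
    · intro d' hd' hne'
      by_contra hcon
      simp only [mem_filter, mem_univ, true_and] at hd'
      apply hne'
      have h1 : J.Adj u d'.snd := by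
        rw [← hd']
        exact ⟨d'.adj, hcon⟩
      have h2 := huniq _ h1
      ext
      · exact hd'
      · exact h2
    · intro hn
      simp at hn
  · unfold IsAcyclic at hac
    push Not at hac
    obtain ⟨v, c, hc⟩ := hac
    refine ⟨v, c.mapLe hle, (Walk.isCycle_mapLe hle).2 hc, ?_⟩
    intro e he
    rw [Walk.edges_mapLe_eq_edges] at he
    have h1 := c.edges_subset_edgeSet he
    obtain ⟨d, rfl⟩ := dedge_surj e
    obtain ⟨_, h2⟩ : J.Adj d.fst d.snd := h1
    exact h2

/-- if all cycles with edges in `P` are null-homologous then so are all mod 2 cycles in `P` -/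
lemma all_bounding (R : Rotation H) (P : H.edgeSet → Prop)
    (hW : ∀ (v : V) (c : H.Walk v v), c.IsCycle → (∀ e : H.edgeSet, e.1 ∈ c.edges → P e) →
      vec c ∈ LinearMap.range (d2 R)) :
    SK P ⊓ LinearMap.ker (d1 H) ≤ LinearMap.range (d2 R) := by
  classical
  have key : ∀ n : ℕ, ∀ z : H.edgeSet → ZMod 2, z ∈ SK P → d1 H z = 0 →
      (univ.filter fun e => z e ≠ 0).card = n → z ∈ LinearMap.range (d2 R) := by
    intro n
    induction n using Nat.strong_induction_on with
    | _ n ih =>
      intro z hz1 hz2 hn
      by_cases h0 : z = 0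
      · rw [h0]; exact Submodule.zero_mem _
      obtain ⟨v, c, hc, hce⟩ := exists_cycle z hz2 h0
      have hvec := hW v c hc (fun e he => by
        by_contra hcon
        exact hce e he (hz1 e hcon))
      have happ : ∀ e, (z + vec c) e = if e.1 ∈ c.edges then 0 else z e := by
        intro e
        rw [Pi.add_apply, vec_apply c hc.isTrail]
        by_cases h : e.1 ∈ c.edges
        · rw [if_pos h, if_pos h]
          have h1 : ∀ x : ZMod 2, x ≠ 0 → x + 1 = 0 := by decide
          exact h1 _ (hce e h)
        · rw [if_neg h, if_neg h, add_zero]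
      have hmem : z + vec c ∈ LinearMap.range (d2 R) := by
        apply ih (univ.filter fun e => (z + vec c) e ≠ 0).card _ _ _ _ rfl
        · rw [← hn]
          apply card_lt_card
          rw [ssubset_iff_of_subset]
          · obtain ⟨e, he⟩ : ∃ e, e ∈ c.edges := by
              have h3 := hc.three_le_length
              rw [← Walk.length_edges] at h3
              exact ⟨c.edges[0], List.getElem_mem _⟩
            have heG := c.edges_subset_edgeSet he
            refine ⟨⟨e, heG⟩, ?_, ?_⟩
            · simp only [mem_filter, mem_univ, true_and]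
              exact hce ⟨e, heG⟩ he
            · simp only [mem_filter, mem_univ, true_and, happ]
              simp [he]
          · intro e he
            simp only [mem_filter, mem_univ, true_and, happ] at he ⊢
            split_ifs at he with h
            · exact absurd rfl he
            · exact he
        · intro e he
          rw [happ, hz1 e he]
          simp
        · rw [map_add, hz2, zero_add]
          exact range_d2_le R hvec
      have h2 : z = (z + vec c) + vec c := by
        ext e
        simp only [Pi.add_apply]
        rw [add_assoc, CharTwo.add_self_eq_zero, add_zero]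
      rw [h2]
      exact Submodule.add_mem _ hmem hvec
  rintro z ⟨hz1, hz2⟩
  exact key _ z hz1 hz2 rfl

end Pool.Agent.L7h33.LP
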